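import Pool.Agent.Lib.MP_6d445e_gt.H63.Meas

/-! # Common parts of COR1 and COR2 -/

set_option autoImplicit false

universe u v w

namespace Pool.Agent.Lib.MP_6d445e_gt.H63

open Filter Cardinal
open Pool.Agent.Lib.MP_100a6c_lc
open Pool.Agent.Lib.MP_c5d73d_lc.F (pr)
open Pool.Agent.Lib.MP_e6fef2_lc

/-! ## Old names -/

section

variable {κ : Cardinal.{u}} {I : Type u} [LinearOrder I] [WellFoundedLT I] (hI : Idx κ I)
  {A : I → Type u} [∀ i, CompleteBooleanAlgebra (A i)] {f : ∀ i j, A i → A j}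
  {ι : ∀ i, H1.RO Sw.{u} → A i} {B : Type u} [CompleteBooleanAlgebra B] {e : ∀ i, A i → B}
  (hIt : ItM κ I A f ι B e)

include hI hIt

/-- Countably many elements of `B` come from one stage. -/
theorem old_family {J : Type v} [Countable J] (b : J → B) :
    ∃ i0 : I, ∀ i, i0 ≤ i → ∃ b' : J → A i, ∀ j, b j = e i (b' j) := by
  choose st a ha using fun j => hIt.old (b j)
  have hc : (Set.range st).Countable := Set.countable_range st
  have h1 : #(Set.range st) < κ := (Cardinal.le_aleph0_iff_set_countable.2 hc).trans_lt hI.unc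
  obtain ⟨i0, hi0⟩ := (all_idx.2.1 κ I hI).1 (Set.range st) h1
  refine ⟨i0, fun i hi => ⟨fun j => f (st j) i (a j), fun j => ?_⟩⟩
  have h2 : st j ≤ i := (hi0 _ ⟨j, rfl⟩).le.trans hi
  rw [ha j, hIt.top.comp _ _ h2]

theorem old_fn (F : ℕ → ℕ → B) :
    ∃ i0 : I, ∀ i, i0 ≤ i → ∃ F' : ℕ → ℕ → A i, ∀ n k, F n k = e i (F' n k) := by
  obtain ⟨i0, h⟩ := old_family hI hIt (J := ℕ × ℕ) (fun z => F z.1 z.2)
  refine ⟨i0, fun i hi => ?_⟩
  obtain ⟨b, hb⟩ := h i hi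
  exact ⟨fun n k => b (n, k), fun n k => hb (n, k)⟩

theorem old_el (b : B) : ∃ i0 : I, ∀ i, i0 ≤ i → ∃ b' : A i, b = e i b' := by
  obtain ⟨i0, h⟩ := old_family hI hIt (J := Unit) (fun _ => b)
  refine ⟨i0, fun i hi => ?_⟩
  obtain ⟨b', hb⟩ := h i hi
  exact ⟨b' (), hb ()⟩

end

/-! ## The element `gen A N` -/

/-- There is a condition compatible with a given nonzero element. -/
theorem exists_compat {A : Type u} [CompleteBooleanAlgebra A] {ι : H1.RO Sw.{u} → A}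
    (hι : IsCE ι) {b : A} (hb : b ≠ ⊥) : ∃ s : Sw.{u}, ι (pr s) ⊓ b ≠ ⊥ := by
  by_contra hcon
  push Not at hcon
  apply hb
  obtain ⟨htop, -, -, -, -, hS, -⟩ := all_alg _ A ι hι
  obtain ⟨-, -, h3, -⟩ := all_roapi Sw.{u}
  have h1 := h3 ⊤
  have h2 : ι ⊤ = ⨆ p : {p : Sw.{u} // pr p ≤ (⊤ : H1.RO Sw.{u})}, ι (pr p.1) := by
    conv_lhs => rw [h1]
    exact hS _ _
  have h4 : b = b ⊓ ι ⊤ := by rw [htop, inf_top_eq]
  rw [h4, h2, inf_iSup_eq]
  simp only [iSup_eq_bot]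
  intro p
  rw [inf_comm]
  exact hcon p.1

theorem gen_ne (hS : SGC Sw.{u}) (A : Type u) [CompleteBooleanAlgebra A] (ι : H1.RO Sw.{u} → A)
    (hι : IsCE ι) (hpe : PE ι) :
    ∀ᶠ N in club, ∀ b : A, In N b → b ≠ ⊥ → gen A N ⊓ b ≠ ⊥ := by
  classical
  have h0 : ∀ b : A, ∃ s : Sw.{u}, b ≠ ⊥ → ι (pr s) ⊓ b ≠ ⊥ := by
    intro b
    by_cases hb : b = ⊥
    · exact ⟨⟨⟨Set.univ⟩, Set.infinite_univ⟩, fun h => absurd hb h⟩
    · obtain ⟨s, hs⟩ := exists_compat hι hb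
      exact ⟨s, fun _ => hs⟩
  choose F hF using h0
  have hcl := all_club.{u}
  obtain ⟨-, -, -, -, -, hfun, -⟩ := hcl
  filter_upwards [all_xnz Sw.{u} hS A ι hι hpe, hfun A Sw.{u} F, hS] with N h1 h2 h3 b hb hb0
  obtain ⟨t, -, ht, h4⟩ := h1 b hb (F b) (h2 b hb) (hF b hb0)
  obtain ⟨s', hs', hsg⟩ := h3 t ht
  have h5 := h4 s' hs' hsg
  intro h6
  rw [h6, inf_bot_eq] at h5
  exact h5 rfl

/-! ## The identity -/

section

variable (B : Type u) [CompleteBooleanAlgebra B]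

open Classical in
/-- The name of the identity. -/
noncomputable def idn (n k : ℕ) : B := if n = k then ⊤ else ⊥

variable {B}

theorem idn_mem (h : Ult B) (n k : ℕ) : idn B n k ∈ h ↔ n = k := by
  unfold idn
  split_ifs with hnk
  · exact ⟨fun _ => hnk, fun _ => h.mem_top⟩
  · exact ⟨fun h' => absurd h' h.not_bot, fun h' => absurd h' hnk⟩

theorem idn_isFN : IsFN (idn B) :=
  Eventually.of_forall fun h n => ⟨n, (idn_mem h n n).2 rfl, fun k hk => ((idn_mem h n k).1 hk).symm⟩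

theorem fv_idn (h : Ult B) (n : ℕ) : fv (idn B) h n = n := by
  unfold fv
  have : {k | idn B n k ∈ h} = {n} := by
    ext k
    rw [Set.mem_ofPred_eq, idn_mem, Set.mem_singleton_iff]
    exact eq_comm
  rw [this]
  exact csInf_singleton n

theorem idn_mono : ∀ᶠ h in ae B, StrictMono (fv (idn B) h) := by
  refine Eventually.of_forall fun h => ?_
  have : fv (idn B) h = id := by
    funext n
    exact fv_idn h n
  rw [this]
  exact strictMono_id

end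

/-! ## The slalom of the translates -/

section

variable {B : Type u} [CompleteBooleanAlgebra B] {Λ : Type v}

theorem exists_slalom (D : GD B Λ) (v : Λ) : ∃ x : ℕ → B, Sl x ∧ ∀ᶠ h in ae B, ∀ p i,
    x (Nat.pair p i) ∈ h ↔ ∃ k ≤ p.unpair.2, fv (D.rel (D.rd v k)) h p.unpair.1 = i := by
  obtain ⟨x, hx⟩ := exists_name (A := B) (J := ℕ)
    (F := fun n h => ∃ k, k ≤ n.unpair.1.unpair.2 ∧
      fv (D.rel (D.rd v k)) h n.unpair.1.unpair.1 = n.unpair.2)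
    (fun n => ms_ex fun k => ms_and (ms_const _)
      (ms_rel (fun a b => a = b) (meas_fv _ _) measurable_const))
  have h1 : ∀ᶠ h in ae B, ∀ p i,
      x (Nat.pair p i) ∈ h ↔ ∃ k ≤ p.unpair.2, fv (D.rel (D.rd v k)) h p.unpair.1 = i := by
    filter_upwards [hx] with h hh p i
    rw [hh (Nat.pair p i)]
    simp only [Nat.unpair_pair]
  refine ⟨x, ⟨fun p => p.unpair.2 + 1, ?_⟩, h1⟩
  filter_upwards [h1] with h hh _ p
  have h2 : {i | x (Nat.pair p i) ∈ h} =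
      (fun k => fv (D.rel (D.rd v k)) h p.unpair.1) '' (Finset.Iic p.unpair.2 : Set ℕ) := by
    ext i
    rw [Set.mem_ofPred_eq, hh p i]
    simp only [Set.mem_image, Finset.coe_Iic, Set.mem_Iic]
  rw [h2]
  refine (Set.encard_image_le _ _).trans ?_
  rw [Set.encard_coe_eq_coe_finsetCard, Nat.card_Iic]

end

/-! ## Facts on the group -/

section

variable {B : Type u} [CompleteBooleanAlgebra B] {Λ : Type v} {Γ : B} {D : GD B Λ}
  (hD : GDP Γ D)

include hD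

theorem att (x : Λ) : ∀ᶠ h in ae B, Γ ∈ h → ∀ n, D.rel x n (fv (D.rel x) h n) ∈ h := by
  filter_upwards [hD.tot x] with h hh hΓ n
  exact fv_mem (hh hΓ n)

theorem att_rd (v : Λ) :
    ∀ᶠ h in ae B, Γ ∈ h → ∀ k n, D.rel (D.rd v k) n (fv (D.rel (D.rd v k)) h n) ∈ h := by
  have h1 := ae_all (fun k => att hD (D.rd v k))
  filter_upwards [h1] with h hh hΓ k n
  exact hh k hΓ n

theorem fv_mono (x : Λ) : ∀ᶠ h in ae B, Γ ∈ h → Monotone (fv (D.rel x) h) := by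
  filter_upwards [hD.mono x, att hD x] with h h1 h2 hΓ
  exact monotone_nat_of_le_succ fun n => fv_le (h1 hΓ n _ (h2 hΓ (n + 1)))

theorem att_be : ∀ᶠ h in ae B, ∀ n, D.be n (fv D.be h n) ∈ h := by
  filter_upwards [hD.bf] with h hh n
  exact fv_mem (hh n).exists

theorem att_en : ∀ᶠ h in ae B, ∀ n, D.en n (fv D.en h n) ∈ h := by
  filter_upwards [hD.ef] with h hh n
  exact fv_mem (hh n).exists

/-- The inequality (G3). -/
theorem ineq3 (v x : Λ) : ∀ᶠ h in ae B, Γ ∈ h → ∀ n j, j + 1 ≤ n →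
    fv (D.rel (D.rd v (fv (D.rel (D.quo v x)) h n))) h j ≤ fv (D.rel x) h (j + 1) ∧
      fv (D.rel x) h j ≤ fv (D.rel (D.rd v (fv (D.rel (D.quo v x)) h n))) h (j + 1) := by
  filter_upwards [hD.g3a v x, hD.g3b v x, att hD x, att hD (D.quo v x), att_rd hD v] with
    h h1 h2 h3 h4 h5 hΓ n j hj
  exact ⟨fv_le (h1 hΓ n j _ _ hj (h4 hΓ n) (h3 hΓ (j + 1))),
    fv_le (h2 hΓ n j _ _ hj (h4 hΓ n) (h5 hΓ _ (j + 1)))⟩

/-- The inequality (G4). -/
theorem ineq4 (v x : Λ) : ∀ᶠ h in ae B, Γ ∈ h → ∀ n c,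
    fv D.be h (Nat.pair c (fv (D.rel (D.inv x)) h (c + 2))) ≤ n →
    fv (D.rel (D.inv v)) h c ≤ fv D.en h (Nat.pair (fv (D.rel (D.quo v x)) h n)
      (Nat.pair (fv (D.rel (D.inv x)) h (c + 2)) c)) := by
  filter_upwards [hD.g4 v x, att hD (D.inv x), att hD (D.quo v x), att_be hD, att_en hD] with
    h h1 h2 h3 h4 h5 hΓ n c hn
  exact fv_le (h1 hΓ n _ c _ _ _ hn (h3 hΓ n) (h2 hΓ _) (h4 _) (h5 _))

/-- The inequality (G5). -/
theorem ineq5 (v x : Λ) : ∀ᶠ h in ae B, Γ ∈ h → ∀ n m c, c + 2 ≤ n →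
    fv D.be h (Nat.pair c (fv (D.rel (D.quo x v)) h n)) ≤ m →
    fv (D.rel v) h c ≤ fv D.en h (Nat.pair (fv (D.rel x) h m)
      (Nat.pair (fv (D.rel (D.quo x v)) h n) c)) := by
  filter_upwards [hD.g5 v x, att hD x, att hD (D.quo x v), att_be hD, att_en hD] with
    h h1 h2 h3 h4 h5 hΓ n m c hn hm
  exact fv_le (h1 hΓ n m _ c _ _ _ hm hn (h3 hΓ n) (h2 hΓ _) (h4 _) (h5 _))

/-- `(w⁻¹)⁻¹ = w`. -/
theorem fv_ii (w : Λ) : ∀ᶠ h in ae B, Γ ∈ h →
    fv (D.rel (D.inv (D.inv w))) h = fv (D.rel w) h := by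
  filter_upwards [hD.ii w] with h hh hΓ
  funext n
  unfold fv
  congr 1
  ext k
  exact hh hΓ n k

theorem fv_iq (x y : Λ) : ∀ᶠ h in ae B, Γ ∈ h →
    fv (D.rel (D.inv (D.quo x y))) h = fv (D.rel (D.quo y x)) h := by
  filter_upwards [hD.iq x y] with h hh hΓ
  funext n
  unfold fv
  congr 1
  ext k
  exact hh hΓ n k

end

end Pool.Agent.Lib.MP_6d445e_gt.H63
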