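import Pool.Agent.Lib.MP_6d445e_gt.H63.Cor0
import Pool.Agent.Lib.MP_6d445e_gt.W.Iface4

/-! # Common parts of CORW1 and CORW2 -/

set_option autoImplicit false

universe u v w

namespace Pool.Agent.Lib.MP_6d445e_gt.H63

open Filter Cardinal
open Pool.Agent.Lib.MP_100a6c_lc
open Pool.Agent.Lib.MP_c5d73d_lc.F (pr)
open Pool.Agent.Lib.MP_e6fef2_lc

section

variable (hW : IdwStatement.{u}) {κ : Cardinal.{u}} {I : Type u} [LinearOrder I]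
  [WellFoundedLT I] (hI : Idw κ I)
  {A : I → Type u} [∀ i, CompleteBooleanAlgebra (A i)] {f : ∀ i j, A i → A j}
  {ι : ∀ i, H1.RO Sw.{u} → A i} {M : ∀ i, Set (A i)} {B : Type u} [CompleteBooleanAlgebra B]
  {e : ∀ i, A i → B} (hIt : ItW κ I A f ι M B e)

include hW hI hIt

/-- Countably many elements of `B` come from one stage. -/
theorem oldw_family {J : Type v} [Countable J] (b : J → B) :
    ∃ i0 : I, ∀ i, i0 ≤ i → ∃ b' : J → A i, ∀ j, b j = e i (b' j) := by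
  choose st a ha using fun j => hIt.old (b j)
  have hc : (Set.range st).Countable := Set.countable_range st
  have h1 : #(Set.range st) < κ := (Cardinal.le_aleph0_iff_set_countable.2 hc).trans_lt hI.unc
  obtain ⟨i0, hi0⟩ := (hW.2 κ I hI).1 (Set.range st) h1
  refine ⟨i0, fun i hi => ⟨fun j => f (st j) i (a j), fun j => ?_⟩⟩
  have h2 : st j ≤ i := (hi0 _ ⟨j, rfl⟩).le.trans hi
  rw [ha j, hIt.top.comp _ _ h2]

theorem oldw_fn (F : ℕ → ℕ → B) :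
    ∃ i0 : I, ∀ i, i0 ≤ i → ∃ F' : ℕ → ℕ → A i, ∀ n k, F n k = e i (F' n k) := by
  obtain ⟨i0, h⟩ := oldw_family hW hI hIt (J := ℕ × ℕ) (fun z => F z.1 z.2)
  refine ⟨i0, fun i hi => ?_⟩
  obtain ⟨b, hb⟩ := h i hi
  exact ⟨fun n k => b (n, k), fun n k => hb (n, k)⟩

theorem oldw_el (b : B) : ∃ i0 : I, ∀ i, i0 ≤ i → ∃ b' : A i, b = e i b' := by
  obtain ⟨i0, h⟩ := oldw_family hW hI hIt (J := Unit) (fun _ => b)
  refine ⟨i0, fun i hi => ?_⟩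
  obtain ⟨b', hb⟩ := h i hi
  exact ⟨b' (), hb ()⟩

end

theorem sg_gen_ne (hS : SGC Sw.{u}) (A : Type u) [CompleteBooleanAlgebra A]
    (ι : H1.RO Sw.{u} → A) (hι : IsCE ι) (hpe : PE ι) :
    ∀ᶠ N in club, ∀ b : A, In N b → b ≠ ⊥ →
      ∃ s : Sw.{u}, SG N s ∧ ι (pr s) ⊓ gen A N ⊓ b ≠ ⊥ := by
  classical
  have h0 : ∀ b : A, ∃ s : Sw.{u}, b ≠ ⊥ → ι (pr s) ⊓ b ≠ ⊥ := by
    intro b
    by_cases hb : b = ⊥
    · exact ⟨⟨⟨Set.univ⟩, Set.infinite_univ⟩, fun h => absurd hb h⟩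
    · obtain ⟨s, hs⟩ := exists_compat hι hb
      exact ⟨s, fun _ => hs⟩
  choose F hF using h0
  obtain ⟨-, -, -, -, -, hfun, -⟩ := all_club.{u}
  filter_upwards [all_xnz Sw.{u} hS A ι hι hpe, hfun A Sw.{u} F, hS] with N h1 h2 h3 b hb hb0
  obtain ⟨t, -, ht, h4⟩ := h1 b hb (F b) (h2 b hb) (hF b hb0)
  obtain ⟨s', hs', hsg⟩ := h3 t ht
  refine ⟨s', hsg, ?_⟩
  rw [inf_assoc]
  exact h4 s' hs' hsg

end Pool.Agent.Lib.MP_6d445e_gt.H63
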