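import Pool.Agent.Lib.MP_6d445e_gt.H63.Corw0

/-! # CORW1: there is no group in case 1 -/

set_option autoImplicit false

universe u v w

namespace Pool.Agent.Lib.MP_6d445e_gt.H63

open Filter Cardinal
open Pool.Agent.Lib.MP_100a6c_lc
open Pool.Agent.Lib.MP_c5d73d_lc.F (pr)
open Pool.Agent.Lib.MP_e6fef2_lc

theorem corw1 (hXS : Xsw1Statement.{u, v}) (hFIN : FinStatement.{u, v}) (hKEY : KeyStatement.{u})
    (hUB : Ub1Statement.{u}) (hA0 : Ari0Statement) (hA1 : Ari1Statement)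
    (hNXT : NxtStatement.{u}) (hSGS : SgsStatement.{u}) (hIDW : IdwStatement.{u}) :
    Corw1Statement.{u, v} := by
  intro κ I _ _ hI A _ f ι M B _ e hIt Λ Γ D hD hC1
  by_contra hΓ
  obtain ⟨F₀, hF₀, hmb⟩ := hD.mb (idn B) idn_isFN idn_mono
  obtain ⟨i1, h1⟩ := oldw_el hIDW hI hIt Γ
  obtain ⟨i2, h2⟩ := oldw_fn hIDW hI hIt F₀
  obtain ⟨i3, h3⟩ := oldw_fn hIDW hI hIt D.be
  obtain ⟨i4, h4⟩ := oldw_fn hIDW hI hIt D.en
  obtain ⟨i, hi, -, hXN⟩ := hXS κ I hI A f ι M B e hIt Λ Γ D hD hC1 (max (max i1 i2) (max i3 i4))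
  obtain ⟨Γ', hΓ'⟩ := h1 i (((le_max_left _ _).trans (le_max_left _ _)).trans hi.le)
  obtain ⟨F', hF'⟩ := h2 i (((le_max_right _ _).trans (le_max_left _ _)).trans hi.le)
  obtain ⟨be', hbe⟩ := h3 i (((le_max_left _ _).trans (le_max_right _ _)).trans hi.le)
  obtain ⟨en', hen⟩ := h4 i (((le_max_right _ _).trans (le_max_right _ _)).trans hi.le)
  obtain ⟨φ, hφ, hφe, hφP⟩ := hIt.mil i
  have he := hIt.top.ce i
  have hFn : IsFN (fun n k => φ (nxt n k)) := isFN_map hφ (hNXT (A i))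
  have hcι : IsCE (fun x => e i (ι i x)) := (all_alg2 _ _ _ (ι i) (e i) (hIt.good.ιce i) he).1
  obtain ⟨c, hc, hcΓ, w, s, hw⟩ := hFIN B _ hcι (hIt.pp i) Λ Γ D hD _ hFn Γ hΓ le_rfl
  -- names over `A i`
  have qF : F₀ = fun n k => e i (F' n k) := by
    funext n k
    exact hF' n k
  have qb : D.be = fun n k => e i (be' n k) := by
    funext n k
    exact hbe n k
  have qe : D.en = fun n k => e i (en' n k) := by
    funext n k
    exact hen n k
  have nF : IsFN F' := isFN_of_map he (qF ▸ hF₀)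
  have nb : IsFN be' := isFN_of_map he (qb ▸ hD.bf)
  have mF : ∀ n, Measurable fun g : Ult (A i) => fv F' g n := meas_fv F'
  have mb : ∀ n, Measurable fun g : Ult (A i) => fv be' g n := meas_fv be'
  have me : ∀ n, Measurable fun g : Ult (A i) => fv en' g n := meas_fv en'
  obtain ⟨J, hJ, hJv⟩ := exists_fn (A := A i) (F := fun g K => J1 (fv F' g) (fv en' g) K)
    (meas_J1 mF me)
  have hJm : ∀ᶠ g in ae (A i), Monotone (fv J g) ∧ ∀ m, ∃ k, m ≤ fv J g k := by
    filter_upwards [hJv] with g hg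
    rw [hg]
    exact ⟨(hA0 _ _ (fun _ => 0)).1.1, (hA0 _ _ (fun _ => 0)).1.2⟩
  obtain ⟨xv, hSl, hxv⟩ := exists_slalom D (D.inv w)
  -- the choice of `N`
  obtain ⟨hex, -, -, hconst, -⟩ := all_club.{u}
  obtain ⟨N, -, -, ⟨⟨⟨hXN', hUBN⟩, hKN, hgen⟩, ⟨hNs, hNJ⟩, ⟨hNF, hNb⟩, hNc⟩⟩ := hex _
    ((((hXN.and (hUB (A i))).and ((hKEY (A i) B φ hφ hφP c J xv hJ hJm hSl).and
      (sg_gen_ne hSGS.1 (A i) (ι i) (hIt.good.ιce i) (hIt.good.ιpe i))))).and
      (((hconst _ s).and (hconst _ J)).and (((hconst _ F').and (hconst _ be')).and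
        (hconst _ (prj (e i) c))))) ∅ Set.countable_empty
  obtain ⟨-, -, -, -, ele, -, -, -, -, -, eprj, -, -, -, -, -, -, ebot, -⟩ := all_alg _ B (e i) he
  have hprj : prj (e i) c ≠ ⊥ := fun h => hc ((ebot c).1 h)
  obtain ⟨s', hs', ha0⟩ := hgen _ hNc hprj
  have hΓa : e i (ι i (pr s') ⊓ gen (A i) N ⊓ prj (e i) c) ≤ Γ := by
    rw [hΓ', ele]
    refine inf_le_right.trans ((eprj _ _).2 ?_)
    rw [← hΓ']
    exact hcΓ
  obtain ⟨b, hb, hba, x, X, X', hX, hX', hunb⟩ := hXN' s' hs' _ ha0 inf_le_left hΓa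
  have hbΓ : e i b ≤ Γ := ((ele _ _).2 hba).trans hΓa
  have qX : D.rel x = fun n k => e i (X n k) := by
    funext n k
    exact hX n k
  have qX' : D.rel (D.inv x) = fun n k => e i (X' n k) := by
    funext n k
    exact hX' n k
  have mX : ∀ n, Measurable fun g : Ult (A i) => fv X g n := meas_fv X
  have mX' : ∀ n, Measurable fun g : Ult (A i) => fv X' g n := meas_fv X'
  obtain ⟨lam, hlam, hlamv⟩ := exists_fn (A := A i) (F := fun g K => fv X g (fv J g K - 1))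
    (fun K => meas_dep (G := fun m g => fv X g (m - 1)) (fun m => mX _) (meas_fv J K))
  obtain ⟨rho, hrho, hrhov⟩ := exists_fn (A := A i) (F := fun g K => fv X g (fv J g K + 1))
    (fun K => meas_dep (G := fun m g => fv X g (m + 1)) (fun m => mX _) (meas_fv J K))
  obtain ⟨om, hom, homv⟩ := exists_fn (A := A i)
    (F := fun g q => om1 s.S (fv F' g) (fv be' g) (fv X' g) q) (meas_om1 s.S mF mb mX')
  obtain ⟨th, hth, hthv⟩ := exists_fn (A := A i)
    (F := fun g q => th1 s.S (fv F' g) (fv en' g) (fv X' g) q) (meas_th1 s.S mF me mX')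
  have hXm : ∀ᶠ g in ae (A i), b ∈ g → ∀ n, fv X g n ≤ fv X g (n + 1) := by
    refine ae_of_pull he (P := fun g => ∀ n, fv X g n ≤ fv X g (n + 1))
      (ms_all fun n => ms_rel (fun a b => a ≤ b) (mX _) (mX _)) ?_
    filter_upwards [fv_mono hD x] with h hh hbh n
    have h5 := hh (h.mono hbΓ hbh) (Nat.le_succ n)
    rw [qX] at h5
    exact h5
  have hUb : ∀ᶠ g in ae (A i), b ∈ g → Ub N (fv lam g) (fv om g) g := by
    filter_upwards [hUBN s J F' be' hNs hNJ hNF hNb hJ nF nb hJm, hlamv, homv, hXm, hunb] with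
      g g1 g2 g3 g4 g5 hg
    rw [g2, g3]
    exact g1 (fv X g) (fv X' g) (monotone_nat_of_le_succ (g4 hg)) (g5 hg)
  have hφe' : (fun a => φ (mE (A i) a)) = e i := funext hφe
  obtain ⟨d, hd, hdc, -, hdh⟩ := hKN b hb (by
    rw [hφe']
    exact hba.trans (inf_le_inf_right _ inf_le_right)) lam rho om th hlam hrho hom
    hth hUb
  -- an ultrafilter
  obtain ⟨h, hdh', k1, k2, k3, k4, k5, k6, k7, k8, p1, p2, p3, p4, p5⟩ := exists_of_ae
    (hdh.and (hw.and (hxv.and ((fv_mono hD x).and ((ineq3 hD (D.inv w) x).and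
      ((ineq4 hD (D.inv w) x).and ((fv_ii hD w).and ((hmb (D.quo (D.inv w) x)).and
        ((ae_pull he hJv).and ((ae_pull he hlamv).and ((ae_pull he hrhov).and
          ((ae_pull he homv).and (ae_pull he hthv))))))))))))) hd
  have hch : c ∈ h := h.mono hdc hdh'
  have hΓh : Γ ∈ h := h.mono hcΓ hch
  obtain ⟨q, k, m, hq⟩ := k1 hdh' (h.pull he) (fun a => by
    rw [hφe]
    exact Iff.rfl)
  have rF : fv F' (h.pull he) = fv F₀ h := by rw [qF]; rfl
  have rb : fv be' (h.pull he) = fv D.be h := by rw [qb]; rfl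
  have re : fv en' (h.pull he) = fv D.en h := by rw [qe]; rfl
  have rX : fv X (h.pull he) = fv (D.rel x) h := by rw [qX]; rfl
  have rX' : fv X' (h.pull he) = fv (D.rel (D.inv x)) h := by rw [qX']; rfl
  have pJ : ∀ K, fv J (h.pull he) K = J1 (fv F₀ h) (fv D.en h) K := by
    intro K
    rw [p1, rF, re]
  have plam : ∀ K, fv lam (h.pull he) K = fv (D.rel x) h (J1 (fv F₀ h) (fv D.en h) K - 1) := by
    intro K
    rw [p2]
    beta_reduce
    rw [rX, pJ]
  have prho : ∀ K, fv rho (h.pull he) K = fv (D.rel x) h (J1 (fv F₀ h) (fv D.en h) K + 1) := by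
    intro K
    rw [p3]
    beta_reduce
    rw [rX, pJ]
  have pom : ∀ K, fv om (h.pull he) K =
      om1 s.S (fv F₀ h) (fv D.be h) (fv (D.rel (D.inv x)) h) K := by
    intro K
    rw [p4, rF, rb, rX']
  have pth : ∀ K, fv th (h.pull he) K =
      th1 s.S (fv F₀ h) (fv D.en h) (fv (D.rel (D.inv x)) h) K := by
    intro K
    rw [p5, rF, re, rX']
  obtain ⟨m', hm'⟩ := hA1 s.S (fv F₀ h) (fv D.be h) (fv D.en h) (fv (D.rel x) h)
    (fv (D.rel (D.inv x)) h) (fv (D.rel w) h) (fv (D.rel (D.quo (D.inv w) x)) h)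
    (fun k j => fv (D.rel (D.rd (D.inv w) k)) h j) q k s.infinite (k4 hΓh) (k5 hΓh)
    (by
      intro n c hn
      have h5 := k6 hΓh n c hn
      rw [k7 hΓh] at h5
      exact h5)
    (by
      intro a
      obtain ⟨h5, h6, h7, -, -⟩ := hq a
      rw [pth] at h7
      exact ⟨h5, h6, h7⟩)
    (by
      intro a n hn h5 h6
      obtain ⟨-, -, -, h7, -⟩ := hq a
      rw [← h7 n h5 h6]
      exact k2 hch n hn)
    (by
      refine ⟨m, fun a ha w' hw' h5 => ?_⟩
      by_contra hcon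
      push Not at hcon
      obtain ⟨-, -, -, -, h7⟩ := hq a
      have h8 := h7 (fv (D.rel (D.rd (D.inv w) w')) h (J1 (fv F₀ h) (fv D.en h) (k a)))
        (by rw [plam]; exact h5) (by rw [prho]; exact hcon) (by rw [pJ]; exact ha)
      apply h8
      rw [k3, Nat.unpair_pair]
      refine ⟨w', ?_, ?_⟩
      · rw [pom]
        exact hw'
      · rw [pJ])
  obtain ⟨n, hn, hn'⟩ := k8 hΓh m'
  rw [fv_idn] at hn'
  exact absurd (hm' n hn) (not_lt_of_ge hn')

end Pool.Agent.Lib.MP_6d445e_gt.H63
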