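import Pool.Agent.Lib.MP_6d445e_gt.Iface

/-! # DENS: density of the states -/

set_option autoImplicit false

universe u v w

namespace Pool.Agent.Lib.MP_6d445e_gt.H63

open Filter
open Pool.Agent.Lib.MP_100a6c_lc
open Pool.Agent.Lib.MP_e6fef2_lc

theorem inc_append (t : List ℕ) (h : Inc t) (m : ℕ) : ∃ k, m ≤ k ∧ Inc (t ++ [k]) := by
  refine ⟨max m (t.sum + 1), le_max_left _ _, ?_⟩
  unfold Inc
  rw [List.pairwise_append]
  refine ⟨h, List.pairwise_singleton _ _, ?_⟩
  intro a ha b hb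
  rw [List.mem_singleton] at hb
  subst hb
  have h1 : a ≤ t.sum := List.single_le_sum (fun x _ => Nat.zero_le x) a ha
  exact lt_of_lt_of_le (Nat.lt_succ_of_le h1) (le_max_right _ _)

theorem nonempty_mx (A : Type u) [CompleteBooleanAlgebra A] : Nonempty (MX A) := by
  classical
  refine ⟨⟨fun t => if Inc t then ⊤ else ⊥, Eventually.of_forall fun g => ?_⟩⟩
  have h1 : ∀ t : List ℕ, (if Inc t then (⊤ : A) else ⊥) ∈ g ↔ Inc t := by
    intro t
    split_ifs with h
    · exact ⟨fun _ => h, fun _ => g.mem_top⟩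
    · exact ⟨fun h' => absurd h' g.not_bot, fun h' => absurd h' h⟩
  have h2 : {t : List ℕ | (if Inc t then (⊤ : A) else ⊥) ∈ g} = {t | Inc t} := by
    ext t
    exact h1 t
  rw [h2]
  refine ⟨List.Pairwise.nil, ?_, fun t ht => ht, ?_⟩
  · intro t t' htt' ht'
    exact List.Pairwise.sublist htt'.sublist ht'
  · intro t ht
    exact ⟨t, List.prefix_rfl, fun m => inc_append t ht m⟩

theorem ce_mE (A : Type u) [CompleteBooleanAlgebra A] : IsCE (mE A) := by
  have := nonempty_mx A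
  exact (all_tw1 A (MX A) (MQ A)).1

theorem dens (h1 : LpStatement.{u}) (h2 : LbStatement.{u}) (h3 : TreeStatement.{u})
    (h4 : MxfStatement.{u}) : DensStatement.{u} := by
  intro A _ c x
  obtain ⟨hadd, hprj, -⟩ := h1 A
  obtain ⟨-, -, -, -, -, hfo, -⟩ := h4 A
  rw [hprj]
  refine iSup_le fun t => ?_
  obtain ⟨z, hz, -⟩ := h2 A (MC A) (mE A) (ce_mE A) (lp t) (hadd t) c x (fun _ => ⊥)
  obtain ⟨τ, ht1, ht2, ht3⟩ := h3 A t c x z
  refine le_trans ?_ (le_iSup _ t)
  refine le_trans ?_ (le_iSup _ τ)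
  refine le_trans ?_ (le_iSup _ z)
  refine hz.trans (le_inf (le_inf ?_ ht2) ht3)
  exact (hfo τ c _).2 ht1

end Pool.Agent.Lib.MP_6d445e_gt.H63
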