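import Pool.Agent.Lib.MP_6d445e_gt.Iface

/-! # ITP2: interpretations and composition of embeddings -/

set_option autoImplicit false

universe u v w

namespace Pool.Agent.Lib.MP_6d445e_gt.H63

open Pool.Agent.Lib.MP_100a6c_lc
open Pool.Agent.Lib.MP_e6fef2_lc

theorem itp2 : Itp2Statement.{u} := by
  intro A B C _ _ _ f g hf hg
  obtain ⟨-, hcomp, -⟩ := all_alg2 A B C f g hf hg
  obtain ⟨gtop, gbot, ginf, gsup, gle, giS, giI, gnS, gnI, gle_prj, gprj_le, gprj_e, gmono,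
    gprj_iS, gprj_nS, gprj_sS, glin, gprj_bot, gdis⟩ := all_alg B C g hg
  obtain ⟨-, -, finf, fsup, -, -, -, -, -, -, -, -, fmono, -, -, -, -, -, -⟩ := all_alg A B f hf
  have fcompl := hf.compl
  have gcompl := hg.compl
  constructor
  · intro c x z x' h
    unfold itp
    refine le_iInf fun k => (iInf_le _ k).trans ?_
    rw [hcomp]
    exact fmono _ _ (le_inf (gmono _ _ inf_le_left) (h k))
  · intro c x z z' b hb hb'
    unfold itp
    refine le_iInf fun k => ?_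
    rw [hcomp]
    refine hb'.trans ?_
    unfold itp
    refine (iInf_le _ k).trans (fmono _ _ ?_)
    have h1 : b ⊓ agr f z' z k ≤ prj g (c ⊓ agr g z x k) ⊓ agr f z' z k :=
      inf_le_inf_right _ (hb.trans (iInf_le _ k))
    refine h1.trans ?_
    rw [← glin]
    refine gmono _ _ ?_
    rw [inf_assoc]
    refine inf_le_inf_left _ ?_
    unfold agr
    have h2 : g (⨅ n, ⨅ _ : n < k, (f (z' n) ⊓ z n) ⊔ ((f (z' n))ᶜ ⊓ (z n)ᶜ)) =
        ⨅ n, ⨅ _ : n < k, (g (f (z' n)) ⊓ g (z n)) ⊔ ((g (f (z' n)))ᶜ ⊓ (g (z n))ᶜ) := by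
      rw [gnI]
      refine iInf_congr fun n => ?_
      by_cases hn : n < k
      · simp only [hn, iInf_pos, gsup, ginf, gcompl]
      · simp only [hn, iInf_false, gtop]
    rw [h2]
    refine le_iInf fun n => le_iInf fun hn => ?_
    have h3 : ∀ a b c : C, ((b ⊓ c) ⊔ (bᶜ ⊓ cᶜ)) ⊓ ((a ⊓ b) ⊔ (aᶜ ⊓ bᶜ)) ≤
        (a ⊓ c) ⊔ (aᶜ ⊓ cᶜ) := by
      intro a b c
      rw [inf_sup_right, inf_sup_left, inf_sup_left]
      refine sup_le (sup_le ?_ ?_) (sup_le ?_ ?_)
      · refine le_trans ?_ le_sup_left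
        exact le_inf (inf_le_right.trans inf_le_left) (inf_le_left.trans inf_le_right)
      · have : b ⊓ c ⊓ (aᶜ ⊓ bᶜ) = ⊥ := by
          refine le_bot_iff.1 ?_
          calc b ⊓ c ⊓ (aᶜ ⊓ bᶜ) ≤ b ⊓ bᶜ :=
                inf_le_inf inf_le_left inf_le_right
            _ = ⊥ := inf_compl_self b
        rw [this]
        exact bot_le
      · have : bᶜ ⊓ cᶜ ⊓ (a ⊓ b) = ⊥ := by
          refine le_bot_iff.1 ?_
          calc bᶜ ⊓ cᶜ ⊓ (a ⊓ b) ≤ bᶜ ⊓ b := inf_le_inf inf_le_left inf_le_right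
            _ = ⊥ := compl_inf_self b
        rw [this]
        exact bot_le
      · refine le_trans ?_ le_sup_right
        exact le_inf (inf_le_right.trans inf_le_left) (inf_le_left.trans inf_le_right)
    refine le_trans (inf_le_inf ((iInf_le _ n).trans (iInf_le _ hn))
      ((iInf_le _ n).trans (iInf_le _ hn))) ?_
    exact h3 _ _ _

end Pool.Agent.Lib.MP_6d445e_gt.H63
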