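import Pool.Agent.Lib.MP_6d445e_gt.Iface2

/-! # Measurability: names of functions of names

`exists_fn`: a family of measurable functions of the ultrafilter has a name.  `meas_fv`: the value of
a name is measurable.  `meas_dep`: evaluation at a measurable argument.  Then the functions of the
arithmetical part. -/

set_option autoImplicit false

universe u v w

namespace Pool.Agent.Lib.MP_6d445e_gt.H63

open Filter
open Pool.Agent.Lib.MP_100a6c_lc
open Pool.Agent.Lib.MP_e6fef2_lc

/-! ## Sets of natural numbers -/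

theorem sInf_eq_iff (S : Set ℕ) (k : ℕ) :
    sInf S = k ↔ (k ∈ S ∧ ∀ j < k, j ∉ S) ∨ (k = 0 ∧ ∀ j, j ∉ S) := by
  constructor
  · rintro rfl
    rcases S.eq_empty_or_nonempty with h | h
    · right
      subst h
      exact ⟨Nat.sInf_empty, fun j => Set.notMem_empty j⟩
    · left
      exact ⟨Nat.sInf_mem h, fun j hj => Nat.notMem_of_lt_sInf hj⟩
  · rintro (⟨h1, h2⟩ | ⟨rfl, h⟩)
    · refine le_antisymm (Nat.sInf_le h1) ?_
      by_contra hcon
      push Not at hcon
      exact h2 _ hcon (Nat.sInf_mem ⟨k, h1⟩)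
    · have : S = ∅ := by
        ext j
        exact ⟨fun hj => absurd hj (h j), fun hj => absurd hj (Set.notMem_empty j)⟩
      rw [this, Nat.sInf_empty]

theorem sSup_eq_iff (S : Set ℕ) (hS : BddAbove S) (k : ℕ) :
    sSup S = k ↔ (k ∈ S ∧ ∀ j, k < j → j ∉ S) ∨ (k = 0 ∧ ∀ j, j ∉ S) := by
  constructor
  · rintro rfl
    rcases S.eq_empty_or_nonempty with h | h
    · right
      subst h
      exact ⟨by simp, fun j => Set.notMem_empty j⟩
    · left
      exact ⟨Nat.sSup_mem h hS, fun j hj hjS => absurd (le_csSup hS hjS) (not_le_of_gt hj)⟩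
  · rintro (⟨h1, h2⟩ | ⟨rfl, h⟩)
    · refine le_antisymm (csSup_le ⟨k, h1⟩ fun j hj => ?_) (le_csSup hS h1)
      by_contra hcon
      push Not at hcon
      exact h2 j hcon hj
    · have : S = ∅ := by
        ext j
        exact ⟨fun hj => absurd hj (h j), fun hj => absurd hj (Set.notMem_empty j)⟩
      rw [this]
      simp

/-! ## Measurable sets and functions -/

section

variable {Ω : Type*} [MeasurableSpace Ω]

theorem ms_all {ι : Sort*} [Countable ι] {p : ι → Ω → Prop}
    (h : ∀ i, MeasurableSet {ω | p i ω}) : MeasurableSet {ω | ∀ i, p i ω} := by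
  rw [Set.ofPred_forall]
  exact MeasurableSet.iInter h

theorem ms_ex {ι : Sort*} [Countable ι] {p : ι → Ω → Prop}
    (h : ∀ i, MeasurableSet {ω | p i ω}) : MeasurableSet {ω | ∃ i, p i ω} := by
  rw [Set.ofPred_exists]
  exact MeasurableSet.iUnion h

theorem ms_imp {p q : Ω → Prop} (hp : MeasurableSet {ω | p ω}) (hq : MeasurableSet {ω | q ω}) :
    MeasurableSet {ω | p ω → q ω} := by
  have : {ω | p ω → q ω} = {ω | p ω}ᶜ ∪ {ω | q ω} := by
    ext ω
    simp only [Set.mem_union, Set.mem_compl_iff, Set.mem_ofPred_eq]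
    tauto
  rw [this]
  exact hp.compl.union hq

theorem ms_and {p q : Ω → Prop} (hp : MeasurableSet {ω | p ω}) (hq : MeasurableSet {ω | q ω}) :
    MeasurableSet {ω | p ω ∧ q ω} := hp.inter hq

theorem ms_not {p : Ω → Prop} (hp : MeasurableSet {ω | p ω}) : MeasurableSet {ω | ¬ p ω} :=
  hp.compl

theorem ms_const (p : Prop) : MeasurableSet {_ω : Ω | p} := MeasurableSet.const p

/-- Functions of two measurable natural numbers. -/
theorem ms_rel (R : ℕ → ℕ → Prop) {a b : Ω → ℕ} (ha : Measurable a) (hb : Measurable b) :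
    MeasurableSet {ω | R (a ω) (b ω)} := by
  have : {ω | R (a ω) (b ω)} = ⋃ m, ⋃ n, ⋃ _ : R m n, (a ⁻¹' {m}) ∩ (b ⁻¹' {n}) := by
    ext ω
    simp only [Set.mem_iUnion, Set.mem_inter_iff, Set.mem_preimage, Set.mem_singleton_iff,
      Set.mem_ofPred_eq, exists_prop]
    constructor
    · intro h
      exact ⟨_, _, h, rfl, rfl⟩
    · rintro ⟨m, n, h, rfl, rfl⟩
      exact h
  rw [this]
  refine MeasurableSet.iUnion fun m => MeasurableSet.iUnion fun n => MeasurableSet.iUnion fun _ => ?_
  exact (ha (measurableSet_singleton m)).inter (hb (measurableSet_singleton n))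

theorem meas_dep {K : Type*} [MeasurableSpace K] [Countable K] [MeasurableSingletonClass K]
    {G : ℕ → Ω → K} {n : Ω → ℕ} (hG : ∀ m, Measurable (G m)) (hn : Measurable n) :
    Measurable fun ω => G (n ω) ω := by
  refine measurable_to_countable' fun k => ?_
  have : (fun ω => G (n ω) ω) ⁻¹' {k} = ⋃ m, (n ⁻¹' {m}) ∩ (G m ⁻¹' {k}) := by
    ext ω
    simp only [Set.mem_iUnion, Set.mem_inter_iff, Set.mem_preimage, Set.mem_singleton_iff]
    constructor
    · intro h
      exact ⟨_, rfl, h⟩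
    · rintro ⟨m, rfl, h⟩
      exact h
  rw [this]
  exact MeasurableSet.iUnion fun m =>
    (hn (measurableSet_singleton m)).inter (hG m (measurableSet_singleton k))

theorem meas_one (h : ℕ → ℕ) {a : Ω → ℕ} (ha : Measurable a) : Measurable fun ω => h (a ω) :=
  meas_dep (G := fun m _ => h m) (fun _ => measurable_const) ha

theorem meas_two (h : ℕ → ℕ → ℕ) {a b : Ω → ℕ} (ha : Measurable a) (hb : Measurable b) :
    Measurable fun ω => h (a ω) (b ω) :=
  meas_dep (G := fun m ω => h m (b ω)) (fun m => meas_one (h m) hb) ha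

theorem meas_sInf {P : ℕ → Ω → Prop} (hP : ∀ j, MeasurableSet {ω | P j ω}) :
    Measurable fun ω => sInf {j | P j ω} := by
  refine measurable_to_countable' fun k => ?_
  have : (fun ω => sInf {j | P j ω}) ⁻¹' {k} =
      {ω | (P k ω ∧ ∀ j, j < k → ¬ P j ω)} ∪ {ω | (k = 0 ∧ ∀ j, ¬ P j ω)} := by
    ext ω
    rw [Set.mem_preimage, Set.mem_singleton_iff, sInf_eq_iff]
    rfl
  rw [this]
  refine MeasurableSet.union ?_ ?_
  · exact ms_and (hP k) (ms_all fun j => ms_imp (ms_const _) (ms_not (hP j)))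
  · exact ms_and (ms_const _) (ms_all fun j => ms_not (hP j))

theorem meas_sSup {P : ℕ → Ω → Prop} (hP : ∀ j, MeasurableSet {ω | P j ω}) (K : ℕ) :
    Measurable fun ω => sSup {j | j ≤ K ∧ P j ω} := by
  refine measurable_to_countable' fun k => ?_
  have : (fun ω => sSup {j | j ≤ K ∧ P j ω}) ⁻¹' {k} =
      {ω | ((k ≤ K ∧ P k ω) ∧ ∀ j, k < j → ¬ (j ≤ K ∧ P j ω))} ∪
        {ω | (k = 0 ∧ ∀ j, ¬ (j ≤ K ∧ P j ω))} := by
    ext ω
    rw [Set.mem_preimage, Set.mem_singleton_iff,
      sSup_eq_iff _ ⟨K, fun j hj => hj.1⟩]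
    rfl
  rw [this]
  refine MeasurableSet.union ?_ ?_
  · exact ms_and (ms_and (ms_const _) (hP k))
      (ms_all fun j => ms_imp (ms_const _) (ms_not (ms_and (ms_const _) (hP j))))
  · exact ms_and (ms_const _) (ms_all fun j => ms_not (ms_and (ms_const _) (hP j)))

/-! ## The functions of the arithmetical part -/

section arith

variable {f be en Ψ ψ xx xi : Ω → ℕ → ℕ}

theorem meas_mx (hf : ∀ n, Measurable fun ω => f ω n) (n : ℕ) :
    Measurable fun ω => mx (f ω) n := by
  unfold mx
  induction n with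
  | zero =>
    have : (fun ω => (Finset.range (0 + 1)).sup (f ω)) = fun ω => f ω 0 := by
      ext ω
      simp
    rw [this]
    exact hf 0
  | succ n ih =>
    have : (fun ω => (Finset.range (n + 1 + 1)).sup (f ω)) =
        fun ω => max (f ω (n + 1)) ((Finset.range (n + 1)).sup (f ω)) := by
      ext ω
      rw [Finset.range_add_one (n := n + 1), Finset.sup_insert]
    rw [this]
    exact meas_two max (hf (n + 1)) ih

theorem meas_J1 (hf : ∀ n, Measurable fun ω => f ω n) (he : ∀ n, Measurable fun ω => en ω n)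
    (K : ℕ) : Measurable fun ω => J1 (f ω) (en ω) K := by
  unfold J1
  refine meas_sSup (fun j => ?_) K
  refine ms_all fun n => ms_imp (ms_const _) ?_
  refine ms_all fun i => ms_imp (ms_const _) ?_
  refine ms_all fun c => ms_imp (ms_const _) ?_
  refine ms_all fun k => ms_imp ?_ ?_
  · exact ms_rel (fun a b => a ≤ b) measurable_const (hf n)
  · exact ms_rel (fun a b => a < b) (he _) measurable_const

theorem meas_J2 (hf : ∀ n, Measurable fun ω => f ω n) (he : ∀ n, Measurable fun ω => en ω n)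
    (hΨ : ∀ n, Measurable fun ω => Ψ ω n) (K : ℕ) :
    Measurable fun ω => J2 (f ω) (en ω) (Ψ ω) K := by
  unfold J2
  refine meas_sSup (fun j => ?_) K
  refine ms_all fun n => ms_imp (ms_const _) ?_
  refine ms_all fun i => ms_imp (ms_const _) ?_
  refine ms_all fun c => ms_imp (ms_const _) ?_
  refine ms_all fun b => ms_imp (ms_const _) ?_
  refine ms_all fun k => ms_imp ?_ ?_
  · exact ms_rel (fun a b => a ≤ b) measurable_const (hf n)
  · refine ms_rel (fun a b => a < b) ?_ measurable_const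
    exact meas_dep (G := fun m ω => Ψ ω (Nat.pair b m)) (fun m => hΨ _) (he _)

theorem meas_om1 (S : Set ℕ) (hf : ∀ n, Measurable fun ω => f ω n)
    (hb : ∀ n, Measurable fun ω => be ω n) (hx : ∀ n, Measurable fun ω => xi ω n) (q : ℕ) :
    Measurable fun ω => om1 S (f ω) (be ω) (xi ω) q := by
  unfold om1
  refine meas_dep (G := fun m ω => mx (f ω) m) (meas_mx hf) ?_
  refine meas_two max ?_ measurable_const
  exact meas_dep (G := fun m ω => be ω (Nat.pair (nx S q) m)) (fun m => hb _) (hx _)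

theorem meas_th1 (S : Set ℕ) (hf : ∀ n, Measurable fun ω => f ω n)
    (he : ∀ n, Measurable fun ω => en ω n) (hx : ∀ n, Measurable fun ω => xi ω n) (q : ℕ) :
    Measurable fun ω => th1 S (f ω) (en ω) (xi ω) q := by
  unfold th1
  refine meas_sInf fun K => ms_and (ms_const _) ?_
  exact ms_rel (fun a b => a < b) (hx _) (meas_J1 hf he K)

theorem meas_om2 (S : Set ℕ) (hf : ∀ n, Measurable fun ω => f ω n) (q : ℕ) :
    Measurable fun ω => om2 S (f ω) q := meas_mx hf _

theorem meas_th2 (S : Set ℕ) (hf : ∀ n, Measurable fun ω => f ω n)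
    (hb : ∀ n, Measurable fun ω => be ω n) (he : ∀ n, Measurable fun ω => en ω n)
    (hΨ : ∀ n, Measurable fun ω => Ψ ω n) (hψ : ∀ n, Measurable fun ω => ψ ω n)
    (hxx : ∀ n, Measurable fun ω => xx ω n) (hx : ∀ n, Measurable fun ω => xi ω n) (q : ℕ) :
    Measurable fun ω => th2 S (f ω) (be ω) (en ω) (Ψ ω) (ψ ω) (xx ω) (xi ω) q := by
  unfold th2
  have h1 : Measurable fun ω => xi ω (ψ ω (nx S q) + 2) :=
    meas_dep (G := fun m ω => xi ω (m + 2)) (fun m => hx _) (hψ _)
  refine meas_sInf fun K => ms_and (ms_const _) (ms_and ?_ (ms_and ?_ ?_))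
  · exact ms_rel (fun a b => a < b) h1 (meas_J2 hf he hΨ K)
  · exact ms_rel (fun a b => a < b) (hψ _) (meas_J2 hf he hΨ K)
  · refine ms_rel (fun a b => a < b) ?_ measurable_const
    refine meas_dep (G := fun m ω => mx (fun k => en ω (Nat.pair (xx ω (be ω
      (Nat.pair (nx S q) k))) (Nat.pair k (nx S q)))) m) (fun m => ?_) ?_
    · refine meas_mx (f := fun ω k => en ω (Nat.pair (xx ω (be ω (Nat.pair (nx S q) k)))
        (Nat.pair k (nx S q)))) (fun k => ?_) m
      refine meas_dep (G := fun a ω => en ω (Nat.pair a (Nat.pair k (nx S q)))) (fun a => he _) ?_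
      exact meas_dep (G := fun a ω => xx ω a) (fun a => hxx _) (hb _)
    · refine meas_dep (G := fun m ω => mx (f ω) m) (meas_mx hf) ?_
      refine meas_two max ?_ measurable_const
      have h2 : Measurable fun ω => Nat.pair (ψ ω (nx S q)) (xi ω (ψ ω (nx S q) + 2)) :=
        meas_two Nat.pair (hψ _) h1
      exact meas_dep (G := fun m ω => be ω m) (fun m => hb _) h2

end arith

end

/-! ## Names -/

section

variable {A : Type u} [CompleteBooleanAlgebra A]

theorem meas_fv (x : ℕ → ℕ → A) (n : ℕ) : Measurable fun g : Ult A => fv x g n :=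
  meas_sInf fun k => measurable_mem A (x n k)

theorem isFN_of_ae {x : ℕ → ℕ → A} {F : ℕ → Ult A → ℕ}
    (h : ∀ᶠ g in ae A, ∀ j k, x j k ∈ g ↔ F j g = k) : IsFN x := by
  filter_upwards [h] with g hg n
  exact ⟨F n g, (hg n _).2 rfl, fun k hk => ((hg n k).1 hk).symm⟩

theorem fv_eq {x : ℕ → ℕ → A} {g : Ult A} (h : ∀ n, ∃! k, x n k ∈ g) {n k : ℕ}
    (hk : x n k ∈ g) : fv x g n = k := by
  obtain ⟨k', h1, h2⟩ := h n
  have h3 : {k | x n k ∈ g} = {k} := by
    ext j
    rw [Set.mem_ofPred_eq, Set.mem_singleton_iff]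
    constructor
    · intro hj
      rw [h2 j hj, h2 k hk]
    · rintro rfl
      exact hk
  unfold fv
  rw [h3]
  exact csInf_singleton k

theorem fv_mem {x : ℕ → ℕ → A} {g : Ult A} {n : ℕ} (h : ∃ k, x n k ∈ g) : x n (fv x g n) ∈ g :=
  Nat.sInf_mem (s := {k | x n k ∈ g}) h

theorem fv_le {x : ℕ → ℕ → A} {g : Ult A} {n k : ℕ} (h : x n k ∈ g) : fv x g n ≤ k :=
  Nat.sInf_le h

/-- Names of measurable functions. -/
theorem exists_fn {F : Ult A → ℕ → ℕ} (hF : ∀ n, Measurable fun g => F g n) :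
    ∃ x : ℕ → ℕ → A, IsFN x ∧ ∀ᶠ g in ae A, fv x g = F g := by
  obtain ⟨x, hx⟩ := exists_fname (A := A) (J := ℕ) (K := ℕ) (F := fun n g => F g n)
    (fun j k => hF j (measurableSet_singleton k))
  have hfn : IsFN x := isFN_of_ae hx
  refine ⟨x, hfn, ?_⟩
  filter_upwards [hx, hfn] with g hg hg'
  funext n
  exact fv_eq hg' ((hg n _).2 rfl)

end

/-! ## Transfer along complete embeddings -/

section

variable {A B : Type u} [CompleteBooleanAlgebra A] [CompleteBooleanAlgebra B] {e : A → B}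

theorem le_iff_of_ce (he : IsCE e) (a b : A) : e a ≤ e b ↔ a ≤ b :=
  (all_alg A B e he).2.2.2.2.1 a b

/-- A property with a Boolean value which holds for almost all restrictions of the ultrafilters
containing `e a` holds for almost all ultrafilters containing `a`. -/
theorem ae_of_pull (he : IsCE e) {P : Ult A → Prop} (hP : MeasurableSet {g | P g}) {a : A}
    (h : ∀ᶠ k in ae B, e a ∈ k → P (k.pull he)) : ∀ᶠ g in ae A, a ∈ g → P g := by
  obtain ⟨y, hy⟩ := hP
  have h1 : e a ≤ e y := by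
    refine le_of_ae ?_
    filter_upwards [h, ae_pull he hy] with k h2 h3 hk
    have h4 : y ∈ k.pull he ↔ P (k.pull he) := h3
    exact h4.2 (h2 hk)
  have h2 : a ≤ y := (le_iff_of_ce he a y).1 h1
  filter_upwards [hy] with g hg hag
  exact hg.1 (g.mono h2 hag)

theorem fv_pull (he : IsCE e) (x : ℕ → ℕ → A) (k : Ult B) :
    fv x (k.pull he) = fv (fun n j => e (x n j)) k := rfl

theorem isFN_map (he : IsCE e) {x : ℕ → ℕ → A} (hx : IsFN x) : IsFN fun n k => e (x n k) :=
  ae_pull he hx

theorem isFN_of_map (he : IsCE e) {x : ℕ → ℕ → A} (hx : IsFN fun n k => e (x n k)) : IsFN x := by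
  have hm : MeasurableSet {g : Ult A | ∀ n, ∃! k, x n k ∈ g} := by
    refine ms_all fun n => ?_
    have : {g : Ult A | ∃! k, x n k ∈ g} = {g | ∃ k, x n k ∈ g ∧ ∀ j, x n j ∈ g → j = k} := rfl
    rw [this]
    exact ms_ex fun k => ms_and (measurable_mem A _)
      (ms_all fun j => ms_imp (measurable_mem A _) (ms_const _))
  have h1 : ∀ᶠ k in ae B, e ⊤ ∈ k → ∀ n, ∃! j, x n j ∈ k.pull he := by
    filter_upwards [hx] with k hk _
    exact hk
  have h2 := ae_of_pull he hm h1
  filter_upwards [h2] with g hg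
  exact hg g.mem_top

end

end Pool.Agent.Lib.MP_6d445e_gt.H63
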